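import Mathlib
import Pool.Agent.CGeo.CircleAct

set_option autoImplicit false
open Set Filter Topology
open scoped ENNReal

namespace Pool.Agent.Results.MP_a28c7e_gt.CircleSymmetry

open Pool.Agent.CGeo

universe u

/-- `N(T)`: the number of geometrically distinct closed geodesics of length at most `T`. -/
noncomputable def N (X : Type u) [MetricSpace X] (T : ℝ) : ℕ∞ := ENat.card (Geo X T)

/-- Exponential growth: `N(T) ≥ a λ^T` for all large `T`, for some `a > 0` and `λ > 1`. -/
def GrowsExponentially (N : ℝ → ℕ∞) : Prop :=
  ∃ a > (0 : ℝ), ∃ lam > (1 : ℝ), ∀ᶠ T in atTop, ENNReal.ofReal (a * lam ^ T) ≤ (N T : ℝ≥0∞)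

/-- `c` is a closed geodesic of length `q`: `q` is its smallest positive period. -/
def HasLength {X : Type u} [MetricSpace X] (c : ℝ → X) (q : ℝ) : Prop :=
  IsClosedGeodesic c q ∧ ∀ p, 0 < p → p < q → ¬ ∀ t, c (t + p) = c t

/-- The inclusion of the classes of length at most `T` into those of length at most `T'`. -/
noncomputable def incl {X : Type u} [MetricSpace X] {T T' : ℝ} (h : T ≤ T') : Geo X T → Geo X T' :=
  Quotient.map' (s₁ := geoSetoid X T) (s₂ := geoSetoid X T')
    (fun c => ⟨c.1, c.2.choose, c.2.choose_spec.1.trans h, c.2.choose_spec.2⟩)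
    (fun _ _ hcc' => hcc')

lemma incl_injective {X : Type u} [MetricSpace X] {T T' : ℝ} (h : T ≤ T') :
    Function.Injective (incl (X := X) h) := by
  intro a b
  induction a using Quotient.inductionOn with
  | h a =>
    induction b using Quotient.inductionOn with
    | h b =>
      intro hab
      have h1 : Same a.1 b.1 := Quotient.exact (s := geoSetoid X T') hab
      exact Quotient.sound (s := geoSetoid X T) h1

lemma minimal_of_hasLength {X : Type u} [MetricSpace X] {c : ℝ → X} {q : ℝ}
    (h : HasLength c q) (a : ℝ) (ha : ∀ t, c (t + a) = c t) : ∃ k : ℤ, a = k * q := by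
  obtain ⟨q', hq'0, hq'1, hq'2⟩ := h.1.exists_minimal_period
  obtain ⟨m, hm⟩ := hq'2 q h.1.periodic
  have hq0 := h.1.pos
  have h1 : q ≤ q' := by
    by_contra hlt
    push Not at hlt
    exact h.2 q' hq'0 hlt hq'1
  have h2 : q' = q := by
    have hm0 : (0 : ℝ) < m := by
      by_contra hneg
      push Not at hneg
      have : (m : ℝ) * q' ≤ 0 := mul_nonpos_of_nonpos_of_nonneg hneg hq'0.le
      linarith
    have hm1 : (1 : ℝ) ≤ m := by exact_mod_cast Int.cast_pos.1 hm0
    nlinarith
  rw [← h2]
  exact hq'2 a ha

/-- Let the circle act continuously by isometries on `X` (e.g. a closed Riemannian manifold) such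
that a rotation by the angle `2πs` moves every point by at most `L |s|`. Then for every `T` there
are uncountably many geometrically distinct closed geodesics of length at most `T`, or all
closed geodesics of length in `(L, T]` are pointwise fixed by the circle. If the action has no
fixed point then the number of closed geodesics either grows exponentially or is bounded. -/
theorem result (X : Type u) [MetricSpace X] [MulAction Circle X] [ContinuousSMul Circle X]
    [IsIsometricSMul Circle X] (L : ℝ)
    (hL : ∀ (s : ℝ) (p : X), dist (Circle.exp (2 * Real.pi * s) • p) p ≤ L * |s|) :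
    (∀ T : ℝ, Uncountable (Geo X T) ∨ ∀ (c : ℝ → X) (q : ℝ), HasLength c q → L < q → q ≤ T →
      ∀ (g : Circle) (t : ℝ), g • c t = c t) ∧
    ((∀ p : X, ∃ g : Circle, g • p ≠ p) →
      GrowsExponentially (N X) ∨ (N X L < ⊤ ∧ ∀ T, N X T ≤ N X L)) := by
  have main : ∀ T : ℝ, Countable (Geo X T) → ∀ (c : ℝ → X) (q : ℝ), HasLength c q → L < q →
      q ≤ T → ∀ (g : Circle) (t : ℝ), g • c t = c t := by
    intro T hT c q hcq hLq hqT g t
    exact fixed_of_long hcq.1 (fun g => shift_of_countable hqT hcq.1 g) hL hcq.1.pos
      hcq.1.periodic (minimal_of_hasLength hcq) hLq g t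
  refine ⟨fun T => ?_, fun hfix => ?_⟩
  · by_cases hT : Countable (Geo X T)
    · exact Or.inr (main T hT)
    · exact Or.inl (not_countable_iff.1 hT)
  · by_cases hfin : ∃ T, N X T = ⊤
    · left
      obtain ⟨T₀, hT₀⟩ := hfin
      refine ⟨1, one_pos, 2, one_lt_two, ?_⟩
      filter_upwards [eventually_ge_atTop T₀] with T hT
      have h1 : N X T = ⊤ := by
        have hinf : Infinite (Geo X T₀) := by
          rw [← not_finite_iff_infinite]
          intro hf
          have : ENat.card (Geo X T₀) < ⊤ := ENat.card_lt_top_of_finite
          exact absurd hT₀ this.ne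
        have : Infinite (Geo X T) := Infinite.of_injective _ (incl_injective hT)
        exact ENat.card_eq_top_of_infinite
      rw [h1]
      simp
    · right
      push Not at hfin
      refine ⟨lt_top_iff_ne_top.2 (hfin L), fun T => ?_⟩
      have hfinite : Finite (Geo X T) := by
        by_contra hinf
        rw [not_finite_iff_infinite] at hinf
        exact hfin T ENat.card_eq_top_of_infinite
      have hfiniteL : Finite (Geo X L) := by
        by_contra hinf
        rw [not_finite_iff_infinite] at hinf
        exact hfin L ENat.card_eq_top_of_infinite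
      -- every closed geodesic of length at most `T` has length at most `L`
      have hshort : ∀ (c : ℝ → X) (ℓ : ℝ), ℓ ≤ T → IsClosedGeodesic c ℓ →
          ∃ q, q ≤ L ∧ IsClosedGeodesic c q := by
        intro c ℓ hℓ hc
        obtain ⟨q, hq0, hq1, hq2⟩ := hc.exists_minimal_period
        have hcq : IsClosedGeodesic c q := ⟨hq0, hq1, hc.locIsom⟩
        obtain ⟨m, hm⟩ := hq2 ℓ hc.periodic
        have hqℓ : q ≤ ℓ := by
          have hℓ0 := hc.pos
          have hm0 : (0 : ℝ) < m := by
            by_contra hneg
            push Not at hneg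
            have : (m : ℝ) * q ≤ 0 := mul_nonpos_of_nonpos_of_nonneg hneg hq0.le
            linarith
          have hm1 : (1 : ℝ) ≤ m := by exact_mod_cast Int.cast_pos.1 hm0
          nlinarith
        refine ⟨q, ?_, hcq⟩
        by_contra hLq
        push Not at hLq
        have hlen : HasLength c q := by
          refine ⟨hcq, fun p hp0 hpq hp => ?_⟩
          obtain ⟨k, hk⟩ := hq2 p hp
          have hk0 : (0 : ℝ) < k := by
            by_contra hneg
            push Not at hneg
            have : (k : ℝ) * q ≤ 0 := mul_nonpos_of_nonpos_of_nonneg hneg hq0.le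
            linarith
          have hk1 : (1 : ℝ) ≤ k := by exact_mod_cast Int.cast_pos.1 hk0
          nlinarith
        obtain ⟨g, hg⟩ := hfix (c 0)
        exact hg (main T inferInstance c q hlen hLq (hqℓ.trans hℓ) g 0)
      let f : Geo X T → Geo X L := Quotient.map' (s₁ := geoSetoid X T) (s₂ := geoSetoid X L)
        (fun c => ⟨c.1, hshort c.1 c.2.choose c.2.choose_spec.1 c.2.choose_spec.2⟩)
        (fun _ _ hcc' => hcc')
      have hf : Function.Injective f := by
        intro a b
        induction a using Quotient.inductionOn with
        | h a =>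
          induction b using Quotient.inductionOn with
          | h b =>
            intro hab
            have h1 : Same a.1 b.1 := Quotient.exact (s := geoSetoid X L) hab
            exact Quotient.sound (s := geoSetoid X T) h1
      exact ENat.card_le_card_of_injective hf

end Pool.Agent.Results.MP_a28c7e_gt.CircleSymmetry
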