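import Mathlib
import Pool.Agent.CGeo.Riem
import Pool.Agent.CGeo.Char

set_option autoImplicit false
open Set Filter Topology Bundle Manifold
open scoped ENNReal ContDiff

namespace Pool.Agent.Results.MP_a28c7e_gt.SymmetricMetrics

open Pool.Agent.CGeo

universe u v w x

/-- `N(T)`: the number of geometrically distinct closed geodesics of length at most `T`. -/
noncomputable def N (X : Type w) [MetricSpace X] (T : ℝ) : ℕ∞ := ENat.card (Geo X T)

/-- Exponential growth: `N(T) ≥ a λ^T` for all large `T`, for some `a > 0` and `λ > 1`. -/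
def GrowsExponentially (N : ℝ → ℕ∞) : Prop :=
  ∃ a > (0 : ℝ), ∃ lam > (1 : ℝ), ∀ᶠ T in atTop, ENNReal.ofReal (a * lam ^ T) ≤ (N T : ℝ≥0∞)

/-- No point is fixed by the whole kernel of a continuous character of `G`. -/
def NoCharacterKernelFixesAPoint (G : Type x) (X : Type w) [Group G] [TopologicalSpace G]
    [MulAction G X] : Prop :=
  ∀ χ : G →* Circle, Continuous χ → ∀ p : X, ∃ g : G, χ g = 1 ∧ g • p ≠ p

lemma geo_mono {X : Type w} [MetricSpace X] {T T' : ℝ} (h : T ≤ T') (hu : Uncountable (Geo X T)) :
    Uncountable (Geo X T') := by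
  let f : Geo X T → Geo X T' := Quotient.map'
    (s₁ := geoSetoid X T) (s₂ := geoSetoid X T')
    (fun c => ⟨c.1, c.2.choose, c.2.choose_spec.1.trans h, c.2.choose_spec.2⟩)
    (fun c c' hcc' => hcc')
  have hf : Function.Injective f := by
    intro a b
    induction a using Quotient.inductionOn with
    | h a =>
      induction b using Quotient.inductionOn with
      | h b =>
        intro hab
        have h1 : Same a.1 b.1 := Quotient.exact (s := geoSetoid X T') hab
        exact Quotient.sound (s := geoSetoid X T) h1
  exact hf.uncountable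

theorem zero_or_uncountable {X : Type w} [MetricSpace X] {G : Type x} [Group G]
    [TopologicalSpace G] [IsTopologicalGroup G] [CompactSpace G] [T2Space G] [ConnectedSpace G]
    [MulAction G X] [ContinuousSMul G X] [IsIsometricSMul G X]
    (hG : NoCharacterKernelFixesAPoint G X) (T : ℝ) :
    IsEmpty (Geo X T) ∨ Uncountable (Geo X T) := by
  by_contra hcon
  push Not at hcon
  obtain ⟨hne, hunc⟩ := hcon
  have hcount : Countable (Geo X T) := hunc
  obtain ⟨q⟩ := hne
  induction q using Quotient.inductionOn with
  | h c =>
    obtain ⟨c, ℓ, hℓ, hc⟩ := c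
    obtain ⟨χ, hχ, hker⟩ := exists_character (G := G) hc
      (fun g => shift_of_countable hℓ hc g)
    obtain ⟨g, hg1, hg2⟩ := hG χ hχ (c 0)
    exact hg2 (hker g hg1 0)

/-- Let `M` be a closed Riemannian manifold and let `G` be a compact connected group which acts
continuously by isometries on `M` such that no point of `M` is fixed by the kernel of a
continuous character of `G`. Then for every `T` there are either no closed geodesics or
uncountably many geometrically distinct closed geodesics of length at most `T`. If moreover some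
element of finite order of `G` has no fixed point, then the second alternative holds for all
large `T`; in particular the number of closed geodesics grows exponentially. -/
theorem result {E : Type u} [NormedAddCommGroup E] [NormedSpace ℝ E] {H : Type v}
    [TopologicalSpace H] (I : ModelWithCorners ℝ E H) (M : Type w) [MetricSpace M]
    [CompactSpace M] [Nonempty M] [ChartedSpace H M] [IsManifold I ∞ M]
    [RiemannianBundle (fun (x : M) ↦ TangentSpace I x)] [IsRiemannianManifold I M]
    (G : Type x) [Group G] [TopologicalSpace G] [IsTopologicalGroup G] [CompactSpace G]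
    [T2Space G] [ConnectedSpace G] [MulAction G M] [ContinuousSMul G M] [IsIsometricSMul G M]
    (hG : NoCharacterKernelFixesAPoint G M) :
    (∀ T : ℝ, IsEmpty (Geo M T) ∨ Uncountable (Geo M T)) ∧
    ((∃ (g : G) (n : ℕ), 0 < n ∧ g ^ n = 1 ∧ ∀ p : M, g • p ≠ p) →
      (∃ T₀ : ℝ, ∀ T, T₀ ≤ T → Uncountable (Geo M T)) ∧ GrowsExponentially (N M)) := by
  refine ⟨fun T => zero_or_uncountable hG T, ?_⟩
  rintro ⟨g, n, hn, hgn, hfix⟩
  obtain ⟨c, ℓ, hc⟩ := exists_closedGeodesic (hasApproxSegments I) g n hn hgn hfix
  have h0 : Uncountable (Geo M ℓ) := by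
    rcases zero_or_uncountable hG ℓ with h | h
    · exact (h.false (Quotient.mk (geoSetoid M ℓ) ⟨c, ℓ, le_rfl, hc⟩)).elim
    · exact h
  have h1 : ∀ T, ℓ ≤ T → Uncountable (Geo M T) := fun T hT => geo_mono hT h0
  refine ⟨⟨ℓ, h1⟩, 1, one_pos, 2, one_lt_two, ?_⟩
  filter_upwards [eventually_ge_atTop ℓ] with T hT
  have h2 := h1 T hT
  have h3 : N M T = ⊤ := by
    unfold N
    have : Infinite (Geo M T) := inferInstance
    exact ENat.card_eq_top_of_infinite
  rw [h3]
  simp

end Pool.Agent.Results.MP_a28c7e_gt.SymmetricMetrics
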